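import Pool.Agent.Q227.Fur.Disj
import Pool.Agent.W765.Sta4

set_option autoImplicit false

/-! Orbits of `x ↦ p x`, `x ↦ q x` on the circle together with orbits of minimal systems. -/

open Set Topology MeasureTheory Filter

namespace Pool.Agent.Q227.Fur

universe v

/-- the iterates of `x ↦ p x` -/
def actN (p : ℕ) : Act ℕ UnitAddCircle where
  f := fun n x => (p ^ n) • x
  zero := fun x => by simp
  add := fun a b x => by rw [pow_add, mul_smul]
  cont := fun a => continuous_const_smul _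

/-- the iterates of `x ↦ p x` and `x ↦ q x` -/
def actNN (p q : ℕ) : Act (ℕ × ℕ) UnitAddCircle where
  f := fun n x => (p ^ n.1 * q ^ n.2) • x
  zero := fun x => by simp
  add := fun a b x => by
    rw [← mul_smul]
    congr 1
    simp only [Prod.fst_add, Prod.snd_add, pow_add]
    ring
  cont := fun a => continuous_const_smul _

variable {Y : Type v} [TopologicalSpace Y]

/-- the iterates of a map -/
def iterAct (S : Y → Y) (hS : Continuous S) : Act ℕ Y where
  f := fun n => S^[n]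
  zero := fun y => rfl
  add := fun a b y => Function.iterate_add_apply S a b y
  cont := fun a => hS.iterate a

/-- the iterates of two commuting maps -/
def iterAct2 (S₁ S₂ : Y → Y) (h₁ : Continuous S₁) (h₂ : Continuous S₂)
    (hc : Function.Commute S₁ S₂) : Act (ℕ × ℕ) Y where
  f := fun n y => S₁^[n.1] (S₂^[n.2] y)
  zero := fun y => rfl
  add := fun a b y => by
    simp only [Prod.fst_add, Prod.snd_add, Function.iterate_add_apply]
    rw [(hc.iterate_iterate b.1 a.2) (S₂^[b.2] y)]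
  cont := fun a => (h₁.iterate _).comp (h₂.iterate _)

lemma finRep_nat (r : ℕ) (hr : 1 ≤ r) : FinRep ℕ r (Finset.range r) := by
  intro m
  refine ⟨m % r, Finset.mem_range.2 (Nat.mod_lt _ hr), m / r, ?_⟩
  rw [smul_eq_mul, Nat.mod_add_div]

lemma finRep_nat2 (r : ℕ) (hr : 1 ≤ r) :
    FinRep (ℕ × ℕ) r (Finset.range r ×ˢ Finset.range r) := by
  intro m
  refine ⟨(m.1 % r, m.2 % r), ?_, (m.1 / r, m.2 / r), ?_⟩
  · simp only [Finset.mem_product, Finset.mem_range]
    exact ⟨Nat.mod_lt _ hr, Nat.mod_lt _ hr⟩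
  · ext
    · simp [Nat.mod_add_div]
    · simp [Nat.mod_add_div]

lemma smul_surj {n : ℕ} (hn : 1 ≤ n) : Function.Surjective fun x : UnitAddCircle => n • x := by
  intro y
  obtain ⟨r, rfl⟩ := QuotientAddGroup.mk_surjective y
  refine ⟨((r / n : ℝ) : UnitAddCircle), ?_⟩
  show n • ((r / n : ℝ) : UnitAddCircle) = (r : UnitAddCircle)
  rw [← AddCircle.coe_nsmul, nsmul_eq_mul]
  have : (n : ℝ) ≠ 0 := by positivity
  congr 1
  field_simp

/-- the points of order prime to `N` are dense -/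
lemma dense_coprime {N : ℕ} (hN : 2 ≤ N) :
    Dense {z : UnitAddCircle | ∃ d : ℕ, 0 < d ∧ Nat.Coprime N d ∧ d • z = 0} := by
  intro y
  rw [Metric.mem_closure_iff]
  intro ε hε
  obtain ⟨r, rfl⟩ := QuotientAddGroup.mk_surjective y
  obtain ⟨n, hn⟩ := pow_unbounded_of_one_lt (1 / ε) (by exact_mod_cast hN : (1 : ℝ) < N)
  have hn0 : n ≠ 0 ∨ n = 0 := by tauto
  set d : ℕ := N ^ (n + 1) + 1 with hd
  have hd0 : 0 < d := by omega
  have hdR : (0 : ℝ) < d := by exact_mod_cast hd0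
  have hdn : 1 / ε < d := by
    refine hn.trans_le ?_
    have h1 : N ^ n ≤ d := by
      have : N ^ n ≤ N ^ (n + 1) := Nat.pow_le_pow_right (by omega) (Nat.le_succ n)
      omega
    exact_mod_cast h1
  refine ⟨((round (r * d) / d : ℝ) : UnitAddCircle), ⟨d, hd0, ?_, ?_⟩, ?_⟩
  · have h1 : Nat.Coprime (N ^ (n + 1)) (N ^ (n + 1) + 1) := by simp
    exact Nat.Coprime.coprime_dvd_left (dvd_pow_self N (by omega)) h1
  · rw [← AddCircle.coe_nsmul, AddCircle.coe_eq_zero_iff]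
    refine ⟨round (r * d), ?_⟩
    rw [nsmul_eq_mul, zsmul_eq_mul]
    field_simp
  · have h1 : dist (r : UnitAddCircle) ((round (r * d) / d : ℝ) : UnitAddCircle) ≤
        |r - round (r * d) / d| := Pool.Agent.H847R3.XpXq.dist_coe_le _ _
    refine lt_of_le_of_lt h1 ?_
    have h2 : |r - round (r * d) / d| = |r * d - round (r * d)| / d := by
      rw [← abs_of_pos hdR, ← abs_div, abs_of_pos hdR]
      congr 1
      field_simp
    rw [h2, div_lt_iff₀ hdR]
    have h3 : |r * d - round (r * d)| ≤ 1 / 2 := abs_sub_round _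
    have h4 : 1 < ε * d := by
      rw [div_lt_iff₀ hε] at hdn
      linarith
    linarith

lemma iter_fix {n : ℕ} {z : UnitAddCircle} (h : n • z = z) (k : ℕ) : n ^ k • z = z := by
  induction k with
  | zero => simp
  | succ k ih => rw [pow_succ, mul_smul, h, ih]

lemma dense_per {p : ℕ} (hp : 2 ≤ p) :
    Dense {z : UnitAddCircle | ∃ r : ℕ, 1 ≤ r ∧ ∀ k : ℕ, (actN p).f (r • k) z = z} := by
  refine (dense_coprime hp).mono ?_
  rintro z ⟨d, hd0, hd, hdz⟩
  refine ⟨Nat.totient d, Nat.totient_pos.2 hd0, fun k => ?_⟩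
  show (p ^ (Nat.totient d * k)) • z = z
  rw [pow_mul]
  exact iter_fix (Pool.Agent.W765.Sta.pow_smul_eq hd hdz) k

lemma dense_per2 {p q : ℕ} (hp : 2 ≤ p) (hq : 2 ≤ q) :
    Dense {z : UnitAddCircle | ∃ r : ℕ, 1 ≤ r ∧ ∀ k : ℕ × ℕ, (actNN p q).f (r • k) z = z} := by
  refine (dense_coprime (N := p * q) (by nlinarith)).mono ?_
  rintro z ⟨d, hd0, hd, hdz⟩
  refine ⟨Nat.totient d, Nat.totient_pos.2 hd0, fun k => ?_⟩
  show (p ^ (Nat.totient d • k).1 * q ^ (Nat.totient d • k).2) • z = z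
  simp only [Prod.smul_fst, Prod.smul_snd, smul_eq_mul]
  rw [mul_smul, pow_mul, pow_mul,
    iter_fix (Pool.Agent.W765.Sta.pow_smul_eq (Nat.Coprime.coprime_mul_left hd) hdz) k.2,
    iter_fix (Pool.Agent.W765.Sta.pow_smul_eq (Nat.Coprime.coprime_mul_right hd) hdz) k.1]

/-- **Density in the product with a minimal system**, one map. -/
theorem dense_prod [CompactSpace Y] [T2Space Y] {p : ℕ} (hp : 2 ≤ p) {S : Y → Y}
    (hS : Continuous S) (hm : ∀ y, Dense (range fun n : ℕ => S^[n] y)) {x : UnitAddCircle}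
    (hx : ∀ r : ℕ, 1 ≤ r → Dense (range fun n : ℕ => (p ^ r) ^ n • x)) (y : Y) :
    Dense (range fun n : ℕ => (p ^ n • x, S^[n] y)) := by
  refine Act.disjoint (A := actN p) (S := iterAct S hS) (fun m => smul_surj (Nat.one_le_pow _ _ (by omega))) hm
    (fun r hr => ⟨_, finRep_nat r hr⟩) (dense_per hp) (x := x) (fun r hr => ?_) y
  have h := hx r hr
  refine h.mono ?_
  rintro _ ⟨n, rfl⟩
  refine ⟨n, ?_⟩
  show p ^ (r * n) • x = (p ^ r) ^ n • x
  rw [pow_mul]

/-- **Density in the product with a minimal system**, two maps. -/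
theorem dense_prod2 [CompactSpace Y] [T2Space Y] {p q : ℕ} (hp : 2 ≤ p) (hq : 2 ≤ q)
    {S₁ S₂ : Y → Y} (h₁ : Continuous S₁) (h₂ : Continuous S₂) (hc : Function.Commute S₁ S₂)
    (hm : ∀ y, Dense (range fun n : ℕ × ℕ => S₁^[n.1] (S₂^[n.2] y))) {x : UnitAddCircle}
    (hx : ∀ r : ℕ, 1 ≤ r → Dense {w | ∃ i j : ℕ, w = ((p ^ r) ^ i * (q ^ r) ^ j) • x}) (y : Y) :
    Dense (range fun n : ℕ × ℕ => ((p ^ n.1 * q ^ n.2) • x, S₁^[n.1] (S₂^[n.2] y))) := by
  refine Act.disjoint (A := actNN p q) (S := iterAct2 S₁ S₂ h₁ h₂ hc)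
    (fun m => smul_surj (by
      have h1 : 1 ≤ p ^ m.1 := Nat.one_le_pow _ _ (by omega)
      have h2 : 1 ≤ q ^ m.2 := Nat.one_le_pow _ _ (by omega)
      exact Nat.mul_pos h1 h2)) hm
    (fun r hr => ⟨_, finRep_nat2 r hr⟩) (dense_per2 hp hq) (x := x) (fun r hr => ?_) y
  have h := hx r hr
  refine h.mono ?_
  rintro _ ⟨i, j, rfl⟩
  refine ⟨(i, j), ?_⟩
  show (p ^ (r * i) * q ^ (r * j)) • x = ((p ^ r) ^ i * (q ^ r) ^ j) • x
  rw [pow_mul, pow_mul]

end Pool.Agent.Q227.Fur
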