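import Mathlib

set_option autoImplicit false

/-!
Disjointness of systems with dense periodic points from minimal systems, for actions of commutative
monoids all of whose `r`-th multiples are of finite index (for instance `ℕ` and `ℕ × ℕ`).
-/

open Set Topology

namespace Pool.Agent.Q227.Fur

universe u v w

/-- a continuous action of a commutative monoid -/
structure Act (M : Type u) [AddCommMonoid M] (Y : Type v) [TopologicalSpace Y] where
  f : M → Y → Y
  zero : ∀ y, f 0 y = y
  add : ∀ a b y, f (a + b) y = f a (f b y)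
  cont : ∀ a, Continuous (f a)

variable {M : Type u} [AddCommMonoid M] {X : Type w} {Y : Type v} [TopologicalSpace X]
  [TopologicalSpace Y]

lemma Act.comm (S : Act M Y) (a b : M) (y : Y) : S.f a (S.f b y) = S.f b (S.f a y) := by
  rw [← S.add, ← S.add, add_comm]

/-- all points have dense orbits -/
def Act.Minimal (S : Act M Y) : Prop := ∀ y, Dense (range fun m => S.f m y)

/-- the closure of the orbit under the `r`-th multiples -/
def Act.K (S : Act M Y) (r : ℕ) (y : Y) : Set Y := closure (range fun k : M => S.f (r • k) y)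

/-- the `r`-th multiples are of finite index -/
def FinRep (M : Type u) [AddCommMonoid M] (r : ℕ) (R : Finset M) : Prop :=
  ∀ m : M, ∃ g ∈ R, ∃ k : M, m = g + r • k

/-- The closures of the orbits under the `r`-th multiples are minimal for the `r`-th multiples. -/
theorem Act.minimal_pow [CompactSpace Y] [T2Space Y] {S : Act M Y} (hS : S.Minimal) {r : ℕ}
    (hr : 1 ≤ r) {R : Finset M} (hR : FinRep M r R) {y : Y} {F : Set Y} (hFc : IsClosed F)
    (hFn : F.Nonempty) (hF : ∀ k : M, ∀ z ∈ F, S.f (r • k) z ∈ F) (hFK : F ⊆ S.K r y) :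
    S.K r y ⊆ F := by
  -- the union of the images
  have hZc : IsClosed (⋃ g ∈ R, S.f g '' F) := by
    refine isClosed_biUnion_finset fun g _ => ?_
    exact (hFc.isCompact.image (S.cont g)).isClosed
  obtain ⟨f0, hf0⟩ := hFn
  obtain ⟨g0, hg0, -⟩ := hR 0
  have hZi : ∀ m : M, ∀ z ∈ ⋃ g ∈ R, S.f g '' F, S.f m z ∈ ⋃ g ∈ R, S.f g '' F := by
    intro m z hz
    rw [mem_iUnion₂] at hz
    obtain ⟨g, hg, w, hw, rfl⟩ := hz
    obtain ⟨g', hg', k, hk⟩ := hR (m + g)
    rw [mem_iUnion₂]
    refine ⟨g', hg', S.f (r • k) w, hF k w hw, ?_⟩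
    rw [← S.add, ← hk, S.add]
  have hZ : ∀ z : Y, z ∈ ⋃ g ∈ R, S.f g '' F := by
    intro z
    have h0 : S.f g0 f0 ∈ ⋃ g ∈ R, S.f g '' F := by
      rw [mem_iUnion₂]; exact ⟨g0, hg0, f0, hf0, rfl⟩
    have h1 : closure (range fun m => S.f m (S.f g0 f0)) ⊆ ⋃ g ∈ R, S.f g '' F := by
      refine closure_minimal ?_ hZc
      rintro _ ⟨m, rfl⟩
      exact hZi m _ h0
    exact h1 (hS (S.f g0 f0) z)
  have hy := hZ y
  rw [mem_iUnion₂] at hy
  obtain ⟨g, -, w, hw, hgw⟩ := hy
  have hGc : IsClosed (S.f g '' F) := (hFc.isCompact.image (S.cont g)).isClosed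
  have hKG : S.K r y ⊆ S.f g '' F := by
    refine closure_minimal ?_ hGc
    rintro _ ⟨k, rfl⟩
    exact ⟨S.f (r • k) w, hF k w hw, by show _ = S.f (r • k) y; rw [← hgw, S.comm]⟩
  have hKK : S.K r y ⊆ S.f g '' S.K r y := hKG.trans (image_mono hFK)
  have hind : ∀ j : ℕ, S.K r y ⊆ S.f ((j + 1) • g) '' F := by
    intro j
    induction j with
    | zero => simpa using hKG
    | succ j ih =>
      intro z hz
      obtain ⟨z1, hz1, rfl⟩ := hKK hz
      obtain ⟨z2, hz2, rfl⟩ := ih hz1
      refine ⟨z2, hz2, ?_⟩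
      rw [← S.add, succ_nsmul' g (j + 1)]
  obtain ⟨j, rfl⟩ : ∃ j, r = j + 1 := ⟨r - 1, by omega⟩
  intro z hz
  obtain ⟨w', hw', rfl⟩ := hind j hz
  exact hF g w' hw'

/-- Over a periodic point the closure of an orbit of the product contains the whole fibre. -/
theorem Act.fibre [CompactSpace X] [T2Space X] [CompactSpace Y] [T2Space Y] {A : Act M X}
    {S : Act M Y} (hA : ∀ m, Function.Surjective (A.f m))
    (hS : S.Minimal) {r : ℕ} (hr : 1 ≤ r) {R : Finset M} (hR : FinRep M r R) {x : X}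
    (hx : Dense (range fun k : M => A.f (r • k) x)) {z : X} (hz : ∀ k : M, A.f (r • k) z = z)
    (y y' : Y) : (z, y') ∈ closure (range fun m : M => (A.f m x, S.f m y)) := by
  have key : ∀ g ∈ R, S.K r (S.f g y) ⊆
      {y' | (z, y') ∈ closure (range fun m : M => (A.f m x, S.f m y))} := by
    intro g hg
    have hBc : IsClosed (closure (range fun k : M => (A.f (r • k) (A.f g x), S.f (r • k) (S.f g y)))) :=
      isClosed_closure
    set B : Set (X × Y) :=
      closure (range fun k : M => (A.f (r • k) (A.f g x), S.f (r • k) (S.f g y))) with hB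
    have hBsub : B ⊆ closure (range fun m : M => (A.f m x, S.f m y)) := by
      refine closure_mono ?_
      rintro _ ⟨k, rfl⟩
      exact ⟨r • k + g, by simp only [A.add, S.add]⟩
    have hxg : Dense (range fun k : M => A.f (r • k) (A.f g x)) := by
      have h1 := (hA g).denseRange.dense_image (A.cont g) hx
      refine h1.mono ?_
      rintro _ ⟨_, ⟨k, rfl⟩, rfl⟩
      exact ⟨k, A.comm _ _ _⟩
    have hproj : Prod.fst '' B = univ := by
      have h1 : IsClosed (Prod.fst '' B) := (hBc.isCompact.image continuous_fst).isClosed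
      rw [← h1.closure_eq]
      refine Dense.closure_eq (hxg.mono ?_)
      rintro _ ⟨k, rfl⟩
      exact ⟨(A.f (r • k) (A.f g x), S.f (r • k) (S.f g y)), subset_closure ⟨k, rfl⟩, rfl⟩
    have hFc : IsClosed {w : Y | (z, w) ∈ B} :=
      hBc.preimage (Continuous.prodMk continuous_const continuous_id)
    have hFn : {w : Y | (z, w) ∈ B}.Nonempty := by
      have h1 : z ∈ Prod.fst '' B := by rw [hproj]; trivial
      obtain ⟨⟨a, b⟩, hab, rfl⟩ := h1
      exact ⟨b, hab⟩
    have hFi : ∀ k : M, ∀ w ∈ {w : Y | (z, w) ∈ B}, S.f (r • k) w ∈ {w : Y | (z, w) ∈ B} := by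
      intro k w hw
      have hcont : Continuous fun v : X × Y => (A.f (r • k) v.1, S.f (r • k) v.2) :=
        ((A.cont _).comp continuous_fst).prodMk ((S.cont _).comp continuous_snd)
      have hmt : MapsTo (fun v : X × Y => (A.f (r • k) v.1, S.f (r • k) v.2))
          (range fun l : M => (A.f (r • l) (A.f g x), S.f (r • l) (S.f g y)))
          (range fun l : M => (A.f (r • l) (A.f g x), S.f (r • l) (S.f g y))) := by
        rintro _ ⟨l, rfl⟩
        refine ⟨k + l, ?_⟩
        simp only [smul_add, A.add, S.add]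
      have hw' : (z, w) ∈ B := hw
      have h1 := map_mem_closure hcont hw' hmt
      have h2 : (A.f (r • k) z, S.f (r • k) w) ∈ B := h1
      rw [hz k] at h2
      exact h2
    have hFK : {w : Y | (z, w) ∈ B} ⊆ S.K r (S.f g y) := by
      intro w hw
      refine map_mem_closure continuous_snd hw ?_
      rintro _ ⟨l, rfl⟩
      exact ⟨l, rfl⟩
    exact (Act.minimal_pow hS hr hR hFc hFn hFi hFK).trans fun w hw => hBsub hw
  -- the orbit closures cover everything
  have hcov : y' ∈ ⋃ g ∈ R, S.K r (S.f g y) := by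
    have hc : IsClosed (⋃ g ∈ R, S.K r (S.f g y)) :=
      isClosed_biUnion_finset fun g _ => isClosed_closure
    have h1 : closure (range fun m => S.f m y) ⊆ ⋃ g ∈ R, S.K r (S.f g y) := by
      refine closure_minimal ?_ hc
      rintro _ ⟨m, rfl⟩
      obtain ⟨g, hg, k, rfl⟩ := hR m
      rw [mem_iUnion₂]
      refine ⟨g, hg, subset_closure ⟨k, ?_⟩⟩
      show S.f (r • k) (S.f g y) = S.f (g + r • k) y
      rw [S.add, S.comm]
    exact h1 (hS y y')
  rw [mem_iUnion₂] at hcov
  obtain ⟨g, hg, h⟩ := hcov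
  exact key g hg h

/-- **Disjointness.** -/
theorem Act.disjoint [CompactSpace X] [T2Space X] [CompactSpace Y] [T2Space Y] {A : Act M X}
    {S : Act M Y} (hA : ∀ m, Function.Surjective (A.f m))
    (hS : S.Minimal) (hR : ∀ r : ℕ, 1 ≤ r → ∃ R : Finset M, FinRep M r R)
    (hper : Dense {z : X | ∃ r : ℕ, 1 ≤ r ∧ ∀ k : M, A.f (r • k) z = z}) {x : X}
    (hx : ∀ r : ℕ, 1 ≤ r → Dense (range fun k : M => A.f (r • k) x)) (y : Y) :
    Dense (range fun m : M => (A.f m x, S.f m y)) := by
  have h1 : {z : X | ∃ r : ℕ, 1 ≤ r ∧ ∀ k : M, A.f (r • k) z = z} ×ˢ (univ : Set Y) ⊆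
      closure (range fun m : M => (A.f m x, S.f m y)) := by
    rintro ⟨z, w⟩ ⟨⟨r, hr, hz⟩, -⟩
    obtain ⟨R, hR'⟩ := hR r hr
    exact Act.fibre hA hS hr hR' (hx r hr) hz y w
  have h2 := (hper.prod dense_univ).mono h1
  exact dense_closure.1 h2

end Pool.Agent.Q227.Fur
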