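import Mathlib
import Pool.Agent.W765.Sta4

set_option autoImplicit false

/-!
Random `×p`-invariant measures which are moved by `×q` along a measure preserving map.
-/

open MeasureTheory Set Filter Topology ProbabilityTheory

namespace Pool.Agent.Q227.Fur

/-- support of a measure on the circle -/
def supp (ν : Measure UnitAddCircle) : Set UnitAddCircle := {z | ∀ U ∈ 𝓝 z, 0 < ν U}

lemma isClosed_supp (ν : Measure UnitAddCircle) : IsClosed (supp ν) := by
  rw [← closure_subset_iff_isClosed]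
  intro z hz U hU
  obtain ⟨V, hVU, hVo, hzV⟩ := mem_nhds_iff.1 hU
  obtain ⟨z', hz'V, hz'⟩ := mem_closure_iff.1 hz V hVo hzV
  exact hz' U (mem_nhds_iff.2 ⟨V, hVU, hVo, hz'V⟩)

lemma supp_inter {ν : Measure UnitAddCircle} {V : Set UnitAddCircle} (hV : IsOpen V) :
    (supp ν ∩ V).Nonempty ↔ 0 < ν V := by
  constructor
  · rintro ⟨z, hz, hzV⟩
    exact hz V (hV.mem_nhds hzV)
  · intro h
    by_contra hne
    refine h.ne' (measure_null_of_locally_null V fun z hz => ?_)
    have h1 : z ∉ supp ν := fun h1 => hne ⟨z, h1, hz⟩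
    simp only [supp, mem_ofPred_eq, not_forall, not_lt, nonpos_iff_eq_zero] at h1
    obtain ⟨U, hU, hU0⟩ := h1
    exact ⟨U, mem_nhdsWithin_of_mem_nhds hU, hU0⟩

lemma smul_mem_supp {ν ν' : Measure UnitAddCircle} {b : ℕ}
    (h : ν.map (fun x : UnitAddCircle => b • x) = ν') {z : UnitAddCircle} (hz : z ∈ supp ν) :
    b • z ∈ supp ν' := by
  intro U hU
  obtain ⟨V, hVU, hVo, hzV⟩ := mem_nhds_iff.1 hU
  refine lt_of_lt_of_le ?_ (measure_mono hVU)
  rw [← h, Measure.map_apply (continuous_nsmul b).measurable hVo.measurableSet]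
  exact hz _ ((hVo.preimage (continuous_nsmul b)).mem_nhds hzV)

lemma supp_compl (ν : Measure UnitAddCircle) : ν (supp ν)ᶜ = 0 := by
  by_contra h
  obtain ⟨z, hz, hz'⟩ := (supp_inter (isClosed_supp ν).isOpen_compl).2 (pos_iff_ne_zero.2 h)
  exact hz' hz

theorem fibre_support {Ω : Type*} [MeasurableSpace Ω] {p q : ℕ} (hp : 2 ≤ p) (hq : 2 ≤ q)
    (hpq : Pool.Agent.H705R2.MulIndep p q) {P : Measure Ω} [IsProbabilityMeasure P] {σ : Ω → Ω}
    (hσ : MeasurePreserving σ P P) (κ : Kernel Ω UnitAddCircle) [IsMarkovKernel κ]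
    (h1 : ∀ᵐ ω ∂P, (κ ω).map (fun x : UnitAddCircle => p • x) = κ ω)
    (h2 : ∀ᵐ ω ∂P, (κ ω).map (fun x : UnitAddCircle => q • x) = κ (σ ω))
    (h3 : ∀ x : UnitAddCircle, ∀ᵐ ω ∂P, κ ω {x} = 0) :
    ∀ᵐ ω ∂P, (∀ x : UnitAddCircle, κ ω {x} = 0) ∧
      ∀ U : Set UnitAddCircle, IsOpen U → U.Nonempty → 0 < κ ω U := by
  have hm : Pool.Agent.W765.Sta.Hit (fun ω => supp (κ ω)) := by
    intro V hV
    have : {ω | (supp (κ ω) ∩ V).Nonempty} = (fun ω => κ ω V) ⁻¹' Ioi 0 := by
      ext ω
      exact supp_inter hV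
    rw [this]
    exact (Kernel.measurable_coe κ hV.measurableSet) measurableSet_Ioi
  have hst := Pool.Agent.W765.Sta.stationary_ae hp hq hpq hσ (F := fun ω => supp (κ ω))
    (fun ω => isClosed_supp _) hm (h1.mono fun ω h z hz => smul_mem_supp h hz)
    (h2.mono fun ω h z hz => smul_mem_supp h hz)
  have htor : ∀ᵐ ω ∂P, κ ω {x : UnitAddCircle | IsOfFinAddOrder x} = 0 := by
    have h4 : ∀ᵐ ω ∂P, ∀ x ∈ {x : UnitAddCircle | IsOfFinAddOrder x}, κ ω {x} = 0 :=
      (ae_ball_iff Pool.Agent.H705R2.torsion_countable).2 fun x _ => h3 x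
    filter_upwards [h4] with ω h5
    have h6 : {x : UnitAddCircle | IsOfFinAddOrder x} =
        ⋃ x ∈ {x : UnitAddCircle | IsOfFinAddOrder x}, {x} := (Set.biUnion_of_singleton _).symm
    rw [h6]
    exact (measure_biUnion_null_iff Pool.Agent.H705R2.torsion_countable).2 h5
  filter_upwards [hst, htor, h1] with ω h4 h5 h6
  refine ⟨fun x => ?_, ?_⟩
  · by_contra hx
    have hxt : ¬ IsOfFinAddOrder x := fun h => hx (measure_mono_null (by simpa using h) h5)
    have hle : ∀ y : UnitAddCircle, κ ω {y} ≤ κ ω {p • y} := by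
      intro y
      conv_rhs => rw [← h6]
      rw [Measure.map_apply (continuous_nsmul p).measurable (measurableSet_singleton _)]
      exact measure_mono (by simp)
    have hle' : ∀ n : ℕ, κ ω {x} ≤ κ ω {p ^ n • x} := by
      intro n
      induction n with
      | zero => simp
      | succ n ih => exact ih.trans (by rw [pow_succ', mul_smul]; exact hle _)
    have hinj : Function.Injective (fun n : ℕ => p ^ n • x) :=
      Pool.Agent.H847R3.XpXq.orbit_inj hp hxt
    have h7 : ∑' n : ℕ, κ ω {p ^ n • x} = κ ω (⋃ n : ℕ, {p ^ n • x}) := by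
      rw [measure_iUnion]
      · intro i j hij
        simpa using fun h => hij (hinj h)
      · intro n
        exact measurableSet_singleton _
    have h8 : κ ω (⋃ n : ℕ, {p ^ n • x}) ≤ 1 := prob_le_one
    have h9 : (∑' _ : ℕ, κ ω {x}) ≤ ∑' n : ℕ, κ ω {p ^ n • x} := ENNReal.tsum_le_tsum hle'
    rw [ENNReal.tsum_const_eq_top_of_ne_zero hx, h7] at h9
    exact absurd (h9.trans h8) (by simp)
  · rcases h4 with h4 | h4
    · exfalso
      have h7 : supp (κ ω) ⊆ {x : UnitAddCircle | IsOfFinAddOrder x} := by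
        intro t ht
        by_contra ho
        exact Pool.Agent.W765.Sta.infinite_of_inv hp (fun y hy => smul_mem_supp h6 hy) ht ho h4
      have h8 : κ ω (supp (κ ω)) = 0 := measure_mono_null h7 h5
      have h9 : κ ω univ = 0 := by
        rw [← union_compl_self (supp (κ ω))]
        exact measure_union_null h8 (supp_compl _)
      simp at h9
    · intro U hU hne
      refine (supp_inter hU).1 ?_
      rw [h4, univ_inter]
      exact hne

end Pool.Agent.Q227.Fur
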