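import Mathlib
import Pool.Agent.W765.Sta4

set_option autoImplicit false

/-!
Times at which the orbit of a point visits a set, and families of large sets of times.
-/

open MeasureTheory Set Filter Topology

namespace Pool.Agent.Q227.Fur

/-- a translation invariant, partition regular, Borel family of large sets of times -/
structure LargeFamily (𝓕 : Set (Set ℕ)) : Prop where
  up : ∀ A ∈ 𝓕, ∀ B, A ⊆ B → B ∈ 𝓕
  split : ∀ A B, A ∪ B ∈ 𝓕 → A ∈ 𝓕 ∨ B ∈ 𝓕
  empty : ∅ ∉ 𝓕
  shift : ∀ A ∈ 𝓕, (fun n => n + 1) '' A ∈ 𝓕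
  meas : MeasurableSet 𝓕

/-- the times at which the orbit of `x` under `×p` visits `U` -/
def visits (p : ℕ) (x : UnitAddCircle) (U : Set UnitAddCircle) : Set ℕ := {n | p ^ n • x ∈ U}

/-- the points all of whose neighbourhoods are visited at a large set of times -/
def S (𝓕 : Set (Set ℕ)) (p : ℕ) (x : UnitAddCircle) : Set UnitAddCircle :=
  {z | ∀ U ∈ 𝓝 z, visits p x U ∈ 𝓕}

variable {𝓕 : Set (Set ℕ)} {p q : ℕ} {x : UnitAddCircle}

lemma isClosed_S : IsClosed (S 𝓕 p x) := by
  rw [← closure_subset_iff_isClosed]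
  intro z hz U hU
  obtain ⟨V, hVU, hVo, hzV⟩ := mem_nhds_iff.1 hU
  obtain ⟨z', hz'V, hz'⟩ := mem_closure_iff.1 hz V hVo hzV
  exact hz' U (mem_nhds_iff.2 ⟨V, hVU, hVo, hz'V⟩)

lemma smul_mem_S (h : LargeFamily 𝓕) {z : UnitAddCircle} (hz : z ∈ S 𝓕 p x) :
    p • z ∈ S 𝓕 p x := by
  intro U hU
  have h1 : (fun y : UnitAddCircle => p • y) ⁻¹' U ∈ 𝓝 z :=
    (continuous_nsmul p).continuousAt.preimage_mem_nhds hU
  refine h.up _ (h.shift _ (hz _ h1)) _ ?_
  rintro _ ⟨n, hn, rfl⟩
  show p ^ (n + 1) • x ∈ U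
  rw [pow_succ', mul_smul]
  exact hn

lemma smul_mem_S' (h : LargeFamily 𝓕) {z : UnitAddCircle} (hz : z ∈ S 𝓕 p x) :
    q • z ∈ S 𝓕 p (q • x) := by
  intro U hU
  have h1 : (fun y : UnitAddCircle => q • y) ⁻¹' U ∈ 𝓝 z :=
    (continuous_nsmul q).continuousAt.preimage_mem_nhds hU
  refine h.up _ (hz _ h1) _ ?_
  intro n hn
  show p ^ n • q • x ∈ U
  rw [smul_comm]
  exact hn

/-- compactness -/
lemma exists_mem_S (h : LargeFamily 𝓕) {K : Set UnitAddCircle} (hK : IsClosed K)
    (hU : ∀ U, IsOpen U → K ⊆ U → visits p x U ∈ 𝓕) : (S 𝓕 p x ∩ K).Nonempty := by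
  classical
  by_contra hne
  have h1 : ∀ z ∈ K, ∃ U, IsOpen U ∧ z ∈ U ∧ visits p x U ∉ 𝓕 := by
    intro z hz
    by_contra hcon
    push Not at hcon
    refine hne ⟨z, fun U hU => ?_, hz⟩
    obtain ⟨V, hVU, hVo, hzV⟩ := mem_nhds_iff.1 hU
    exact h.up _ (hcon V hVo hzV) _ fun n hn => hVU hn
  choose! V hVo hzV hVn using h1
  obtain ⟨t, htK, ht⟩ := hK.isCompact.elim_nhds_subcover V fun z hz => (hVo z hz).mem_nhds (hzV z hz)
  have h2 : ∀ s : Finset UnitAddCircle, (∀ z ∈ s, z ∈ K) → visits p x (⋃ z ∈ s, V z) ∉ 𝓕 := by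
    intro s
    induction s using Finset.induction_on with
    | empty =>
      intro _ hcon
      refine h.empty ?_
      convert hcon using 1
      ext n
      simp [visits]
    | insert a s ha ih =>
      intro hs hcon
      have h3 : visits p x (⋃ z ∈ insert a s, V z) =
          visits p x (V a) ∪ visits p x (⋃ z ∈ s, V z) := by
        ext n
        simp [visits, Finset.mem_insert]
      rw [h3] at hcon
      rcases h.split _ _ hcon with h4 | h4
      · exact hVn a (hs a (Finset.mem_insert_self a s)) h4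
      · exact ih (fun z hz => hs z (Finset.mem_insert_of_mem hz)) h4
  exact h2 t htK (hU _ (isOpen_biUnion fun z hz => hVo z (htK z hz)) ht)

lemma visits_mem (h : LargeFamily 𝓕) {U : Set UnitAddCircle} (hU : IsOpen U)
    (hne : (S 𝓕 p x ∩ U).Nonempty) : visits p x U ∈ 𝓕 := by
  obtain ⟨z, hz, hzU⟩ := hne
  exact hz U (hU.mem_nhds hzU)

lemma measurable_visits (p : ℕ) {U : Set UnitAddCircle} (hU : IsOpen U) :
    Measurable fun x : UnitAddCircle => visits p x U := by
  rw [measurable_set_iff]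
  intro n
  rw [← measurableSet_setOfPred]
  exact (hU.preimage (continuous_nsmul (p ^ n))).measurableSet

lemma hit_S (h : LargeFamily 𝓕) (p : ℕ) : Pool.Agent.W765.Sta.Hit (fun x => S 𝓕 p x) := by
  refine Pool.Agent.W765.Sta.hit_of_closed fun C hC => ?_
  have h1 : {x : UnitAddCircle | (S 𝓕 p x ∩ C).Nonempty} = ⋂ k : ℕ,
      (fun x : UnitAddCircle => visits p x (Metric.thickening (1 / ((k : ℝ) + 1)) C)) ⁻¹' 𝓕 := by
    ext x
    simp only [mem_ofPred_eq, mem_iInter, mem_preimage]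
    constructor
    · rintro ⟨z, hz, hzC⟩ k
      exact visits_mem h Metric.isOpen_thickening
        ⟨z, hz, Metric.self_subset_thickening (by positivity) _ hzC⟩
    · intro hk
      refine exists_mem_S h hC fun U hU hCU => ?_
      obtain ⟨δ, hδ, hδU⟩ := hC.isCompact.exists_thickening_subset_open hU hCU
      obtain ⟨k, hk'⟩ := exists_nat_one_div_lt hδ
      refine h.up _ (hk k) _ fun n hn => ?_
      exact hδU (Metric.thickening_mono hk'.le _ hn)
  rw [h1]
  exact MeasurableSet.iInter fun k => measurable_visits p Metric.isOpen_thickening h.meas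

/-- Dichotomy for the sets of times at which orbits visit open sets. -/
theorem large_visits (h : LargeFamily 𝓕) (hp : 2 ≤ p) (hq : 2 ≤ q)
    (hpq : Pool.Agent.H705R2.MulIndep p q) {μ : Measure UnitAddCircle} [IsProbabilityMeasure μ]
    (hμ : MeasurePreserving (fun x : UnitAddCircle => q • x) μ μ) :
    ∀ᵐ x ∂μ, (∀ U : Set UnitAddCircle, IsOpen U → U.Nonempty → visits p x U ∈ 𝓕) ∨
      ∃ R : Set UnitAddCircle, R.Finite ∧ (∀ t ∈ R, IsOfFinAddOrder t ∧ p • t ∈ R) ∧
        ∀ U : Set UnitAddCircle, IsOpen U → R ⊆ U → visits p x Uᶜ ∉ 𝓕 := by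
  have h1 := Pool.Agent.W765.Sta.stationary hp hq hpq hμ (F := fun x => S 𝓕 p x)
    (fun x => isClosed_S) (hit_S h p) (fun x z hz => smul_mem_S h hz) (fun x z hz => smul_mem_S' h hz)
  filter_upwards [h1] with x hx
  rcases hx with hx | hx
  · right
    refine ⟨S 𝓕 p x, hx, fun t ht => ⟨?_, smul_mem_S h ht⟩, fun U hU hRU hcon => ?_⟩
    · by_contra ho
      exact Pool.Agent.W765.Sta.infinite_of_inv hp (fun y hy => smul_mem_S h hy) ht ho hx
    · obtain ⟨z, hz, hzU⟩ := exists_mem_S (x := x) (p := p) h hU.isClosed_compl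
        fun V hV hUV => h.up _ hcon _ fun n hn => hUV hn
      exact hzU (hRU hz)
  · left
    intro U hU hne
    refine visits_mem h hU ?_
    rw [hx, univ_inter]
    exact hne

/-- positive upper density: for some `k` the set has at least `N / k` elements below `N` for
infinitely many `N` -/
def PosUpperDensity : Set (Set ℕ) :=
  {A | ∃ k : ℕ, ∀ M : ℕ, ∃ N : ℕ, M < N ∧ N ≤ k * (A ∩ Set.Iio N).ncard}

/-- positive upper Banach density: for some `k` the set has at least `N / k` elements in intervals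
`[a, a + N)` of arbitrarily large length `N` -/
def PosUpperBanachDensity : Set (Set ℕ) :=
  {A | ∃ k : ℕ, ∀ M : ℕ, ∃ a N : ℕ, M < N ∧ N ≤ k * (A ∩ Set.Ico a (a + N)).ncard}

lemma fin_inter (A : Set ℕ) (a b : ℕ) : (A ∩ Set.Ico a b).Finite :=
  (Set.finite_Ico a b).subset inter_subset_right

lemma ncard_union_le' (A B : Set ℕ) (a b : ℕ) :
    ((A ∪ B) ∩ Set.Ico a b).ncard ≤ (A ∩ Set.Ico a b).ncard + (B ∩ Set.Ico a b).ncard := by
  rw [union_inter_distrib_right]
  exact ncard_union_le _ _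

lemma ncard_mono' {A B : Set ℕ} (h : A ⊆ B) (a b : ℕ) :
    (A ∩ Set.Ico a b).ncard ≤ (B ∩ Set.Ico a b).ncard :=
  ncard_le_ncard (inter_subset_inter_left _ h) (fin_inter B a b)

lemma ncard_shift (A : Set ℕ) (a b : ℕ) :
    (A ∩ Set.Ico a b).ncard = (((fun n => n + 1) '' A) ∩ Set.Ico (a + 1) (b + 1)).ncard := by
  have h1 : ((fun n => n + 1) '' A) ∩ Set.Ico (a + 1) (b + 1) =
      (fun n => n + 1) '' (A ∩ Set.Ico a b) := by
    ext n
    simp only [mem_inter_iff, mem_image, mem_Ico]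
    constructor
    · rintro ⟨⟨m, hm, rfl⟩, h2, h3⟩
      exact ⟨m, ⟨hm, by omega, by omega⟩, rfl⟩
    · rintro ⟨m, ⟨hm, h2, h3⟩, rfl⟩
      exact ⟨⟨m, hm, rfl⟩, by omega, by omega⟩
  rw [h1, ncard_image_of_injective _ (add_left_injective 1)]

lemma measurable_ncard (a b : ℕ) : Measurable fun A : Set ℕ => (A ∩ Set.Ico a b).ncard := by
  classical
  have h1 : (fun A : Set ℕ => (A ∩ Set.Ico a b).ncard) =
      fun A => ∑ n ∈ Finset.Ico a b, if n ∈ A then 1 else 0 := by
    funext A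
    have : A ∩ Set.Ico a b = ((Finset.Ico a b).filter (· ∈ A) : Finset ℕ) := by
      ext n
      simp [and_comm]
    rw [this, ncard_coe_finset, Finset.card_filter]
  rw [h1]
  refine Finset.measurable_sum _ fun n _ => ?_
  exact Measurable.ite (measurableSet_mem n) measurable_const measurable_const

lemma largeFamily_banach : LargeFamily PosUpperBanachDensity where
  up := by
    rintro A ⟨k, hk⟩ B hAB
    refine ⟨k, fun M => ?_⟩
    obtain ⟨a, N, h1, h2⟩ := hk M
    exact ⟨a, N, h1, h2.trans (Nat.mul_le_mul_left k (ncard_mono' hAB _ _))⟩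
  split := by
    rintro A B ⟨k, hk⟩
    by_contra hcon
    push Not at hcon
    obtain ⟨hA, hB⟩ := hcon
    simp only [PosUpperBanachDensity, mem_ofPred_eq, not_exists, not_forall, not_and,
      not_le] at hA hB
    obtain ⟨M1, hM1⟩ := hA (2 * k)
    obtain ⟨M2, hM2⟩ := hB (2 * k)
    obtain ⟨a, N, h1, h2⟩ := hk (max M1 M2)
    have h3 := hM1 a N ((le_max_left _ _).trans_lt h1)
    have h4 := hM2 a N ((le_max_right _ _).trans_lt h1)
    have h5 := Nat.mul_le_mul_left k (ncard_union_le' A B a (a + N))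
    rw [mul_add] at h5
    nlinarith
  empty := by
    rintro ⟨k, hk⟩
    obtain ⟨a, N, h1, h2⟩ := hk 0
    simp at h2
    omega
  shift := by
    rintro A ⟨k, hk⟩
    refine ⟨k, fun M => ?_⟩
    obtain ⟨a, N, h1, h2⟩ := hk M
    refine ⟨a + 1, N, h1, h2.trans (Nat.mul_le_mul_left k ?_)⟩
    rw [ncard_shift A a (a + N)]
    have : a + N + 1 = a + 1 + N := by ring
    rw [this]
  meas := by
    have h1 : PosUpperBanachDensity = ⋃ k : ℕ, ⋂ M : ℕ, ⋃ a : ℕ, ⋃ N : ℕ,
        {A | M < N ∧ N ≤ k * (A ∩ Set.Ico a (a + N)).ncard} := by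
      ext A
      simp only [PosUpperBanachDensity, mem_iUnion, mem_iInter, mem_ofPred_eq]
    rw [h1]
    refine MeasurableSet.iUnion fun k => MeasurableSet.iInter fun M => MeasurableSet.iUnion fun a =>
      MeasurableSet.iUnion fun N => ?_
    refine MeasurableSet.inter (MeasurableSet.const _) ?_
    exact measurableSet_le measurable_const (measurable_const.mul (measurable_ncard a (a + N)))

lemma Iio_eq (N : ℕ) : Set.Iio N = Set.Ico 0 N := by
  ext n; simp

lemma largeFamily_upper : LargeFamily PosUpperDensity where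
  up := by
    rintro A ⟨k, hk⟩ B hAB
    refine ⟨k, fun M => ?_⟩
    obtain ⟨N, h1, h2⟩ := hk M
    rw [Iio_eq] at h2
    refine ⟨N, h1, ?_⟩
    rw [Iio_eq]
    exact h2.trans (Nat.mul_le_mul_left k (ncard_mono' hAB _ _))
  split := by
    rintro A B ⟨k, hk⟩
    by_contra hcon
    push Not at hcon
    obtain ⟨hA, hB⟩ := hcon
    simp only [PosUpperDensity, mem_ofPred_eq, not_exists, not_forall, not_and,
      not_le] at hA hB
    obtain ⟨M1, hM1⟩ := hA (2 * k)
    obtain ⟨M2, hM2⟩ := hB (2 * k)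
    obtain ⟨N, h1, h2⟩ := hk (max M1 M2)
    have h3 := hM1 N ((le_max_left _ _).trans_lt h1)
    have h4 := hM2 N ((le_max_right _ _).trans_lt h1)
    rw [Iio_eq] at h2 h3 h4
    have h5 := Nat.mul_le_mul_left k (ncard_union_le' A B 0 N)
    rw [mul_add] at h5
    nlinarith
  empty := by
    rintro ⟨k, hk⟩
    obtain ⟨N, h1, h2⟩ := hk 0
    simp at h2
    omega
  shift := by
    rintro A ⟨k, hk⟩
    refine ⟨k + 1, fun M => ?_⟩
    obtain ⟨N, h1, h2⟩ := hk M
    refine ⟨N + 1, by omega, ?_⟩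
    rw [Iio_eq] at h2 ⊢
    have h3 := ncard_shift A 0 N
    have h4 : (((fun n => n + 1) '' A) ∩ Set.Ico (0 + 1) (N + 1)).ncard ≤
        (((fun n => n + 1) '' A) ∩ Set.Ico 0 (N + 1)).ncard :=
      ncard_le_ncard (inter_subset_inter_right _ (Ico_subset_Ico_left (by omega)))
        (fin_inter _ _ _)
    rw [← h3] at h4
    have h5 : 1 ≤ (A ∩ Set.Ico 0 N).ncard := by
      rcases Nat.eq_zero_or_pos (A ∩ Set.Ico 0 N).ncard with h | h
      · rw [h] at h2; omega
      · exact h
    calc N + 1 ≤ k * (A ∩ Set.Ico 0 N).ncard + (A ∩ Set.Ico 0 N).ncard := by omega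
      _ = (k + 1) * (A ∩ Set.Ico 0 N).ncard := by ring
      _ ≤ _ := Nat.mul_le_mul_left _ h4
  meas := by
    have h1 : PosUpperDensity = ⋃ k : ℕ, ⋂ M : ℕ, ⋃ N : ℕ,
        {A | M < N ∧ N ≤ k * (A ∩ Set.Iio N).ncard} := by
      ext A
      simp only [PosUpperDensity, mem_iUnion, mem_iInter, mem_ofPred_eq]
    rw [h1]
    refine MeasurableSet.iUnion fun k => MeasurableSet.iInter fun M =>
      MeasurableSet.iUnion fun N => ?_
    refine MeasurableSet.inter (MeasurableSet.const _) ?_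
    rw [Iio_eq]
    exact measurableSet_le measurable_const (measurable_const.mul (measurable_ncard 0 N))

end Pool.Agent.Q227.Fur
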