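import Pool.Agent.Q227.Fur.Circ

set_option autoImplicit false

/-! A uniform version of the density of `(b ^ n x, S ^ n y)`: if the orbit of `x` under `x ↦ b x` is
`η`-dense, then the orbit along the visit times of any point of a given minimal system to a given
open set is `ε`-dense. -/

open Set Topology MeasureTheory Filter

namespace Pool.Agent.Q227.Fur

universe v

/-- some point has a dense orbit under all powers of `x ↦ b x` -/
lemma exists_gen {b : ℕ} (hb : 2 ≤ b) :
    ∃ x : UnitAddCircle, ∀ r : ℕ, 1 ≤ r → Dense (range fun n : ℕ => (b ^ r) ^ n • x) := by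
  have hmp : MeasurePreserving (fun x : UnitAddCircle => (b + 1) • x) volume volume :=
    (AddCircle.ergodic_nsmul (T := (1 : ℝ)) (n := b + 1) (by omega)).toMeasurePreserving
  have hat : ∀ x : UnitAddCircle, (volume : Measure UnitAddCircle) {x} = 0 := by
    intro x
    have h := AddCircle.volume_closedBall (T := 1) (x := x) 0
    rw [Metric.closedBall_zero] at h
    rw [h]
    simp
  have hpv : IsProbabilityMeasure (volume : Measure UnitAddCircle) := ⟨UnitAddCircle.measure_univ⟩
  have h : ∀ᵐ x ∂(volume : Measure UnitAddCircle), ∀ r : ℕ, 1 ≤ r →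
      Dense (range fun n : ℕ => (b ^ r) ^ n • x) := by
    rw [ae_all_iff]
    intro r
    by_cases hr : 1 ≤ r
    · have hbr : 2 ≤ b ^ r := hb.trans (Nat.le_self_pow (by omega) b)
      have hind : Pool.Agent.H705R2.MulIndep (b ^ r) (b + 1) := by
        intro m n hmn
        have hco : Nat.Coprime ((b ^ r) ^ m) ((b + 1) ^ n) := by
          apply Nat.Coprime.pow
          apply Nat.Coprime.pow_left
          simp
        rw [hmn] at hco
        have h1 : (b + 1) ^ n = 1 := by simpa using hco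
        have hn : n = 0 := by
          by_contra hn
          have := Nat.one_lt_pow hn (by omega : 1 < b + 1)
          omega
        have hm : m = 0 := by
          by_contra hm
          have := Nat.one_lt_pow hm (by omega : 1 < b ^ r)
          omega
        exact ⟨hm, hn⟩
      filter_upwards [Pool.Agent.W765.Sta.dense_orbit hbr (by omega : 2 ≤ b + 1) hind hat hmp]
        with x hx _
      exact hx
    · exact Filter.Eventually.of_forall fun x h1 => absurd h1 hr
  exact h.exists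

variable {Y : Type v} [TopologicalSpace Y]

/-- **Uniformity.** -/
theorem unif [CompactSpace Y] [T2Space Y] {b : ℕ} (hb : 2 ≤ b) {S : Y → Y}
    (hS : Continuous S) (hm : ∀ y, Dense (range fun n : ℕ => S^[n] y)) {W : Set Y}
    (hW : IsOpen W) (hWn : W.Nonempty) {ε : ℝ} (hε : 0 < ε) :
    ∃ η : ℝ, 0 < η ∧ ∀ z : UnitAddCircle, (∀ t, ∃ n : ℕ, dist (b ^ n • z) t < η) →
      ∀ y : Y, ∀ t : UnitAddCircle, ∃ m : ℕ, S^[m] y ∈ W ∧ dist (b ^ m • z) t < ε := by
  by_contra hcon
  push Not at hcon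
  have h1 := fun k : ℕ => hcon (1 / ((k : ℝ) + 1)) (by positivity)
  choose z hz y t hzt using h1
  set 𝓤 : Ultrafilter ℕ := hyperfilter ℕ with h𝓤
  obtain ⟨t₀, -, ht₀⟩ := isCompact_univ.ultrafilter_le_nhds (f := 𝓤.map t) (by simp)
  have ht₀' : Tendsto t 𝓤 (𝓝 t₀) := ht₀
  have hnat : (𝓤 : Filter ℕ) ≤ atTop := by
    rw [← Nat.cofinite_eq_atTop]; exact hyperfilter_le_cofinite
  let Z : Set (UnitAddCircle × Y) := {w | ∀ N ∈ 𝓝 w, ∀ᶠ k in (𝓤 : Filter ℕ), ∃ m : ℕ,
    (b ^ m • z k, S^[m] (y k)) ∈ N}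
  have hZc : IsClosed Z := by
    rw [← isOpen_compl_iff, isOpen_iff_mem_nhds]
    intro w hw
    simp only [Z, mem_compl_iff, mem_ofPred_eq, not_forall] at hw
    obtain ⟨N, hN, hNn⟩ := hw
    obtain ⟨N', hN'N, hN'o, hwN'⟩ := mem_nhds_iff.1 hN
    refine mem_nhds_iff.2 ⟨N', fun w' hw' => ?_, hN'o, hwN'⟩
    intro hw'Z
    refine hNn ((hw'Z N' (hN'o.mem_nhds hw')).mono ?_)
    rintro k ⟨m, hmk⟩
    exact ⟨m, hN'N hmk⟩
  have hZi : ∀ w ∈ Z, (b • w.1, S w.2) ∈ Z := by
    intro w hw N hN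
    have hc : Continuous fun w : UnitAddCircle × Y => (b • w.1, S w.2) := by fun_prop
    refine (hw _ (hc.continuousAt.preimage_mem_nhds hN)).mono ?_
    rintro k ⟨m, hmk⟩
    refine ⟨m + 1, ?_⟩
    rw [pow_succ', mul_smul, Function.iterate_succ_apply']
    exact hmk
  have hZn : ∀ n : ℕ, ∀ w ∈ Z, (b ^ n • w.1, S^[n] w.2) ∈ Z := by
    intro n
    induction n with
    | zero => intro w hw; simpa using hw
    | succ n ih =>
      intro w hw
      have := hZi _ (ih w hw)
      rw [pow_succ', mul_smul, Function.iterate_succ_apply']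
      exact this
  have hZp : ∀ x : UnitAddCircle, ∃ v : Y, (x, v) ∈ Z := by
    intro x
    choose m hmx using fun k => hz k x
    obtain ⟨v, -, hv⟩ := isCompact_univ.ultrafilter_le_nhds (f := 𝓤.map fun k => S^[m k] (y k))
      (by simp)
    have hv' : Tendsto (fun k => S^[m k] (y k)) 𝓤 (𝓝 v) := hv
    have hx' : Tendsto (fun k => b ^ (m k) • z k) (𝓤 : Filter ℕ) (𝓝 x) := by
      refine Tendsto.mono_left ?_ hnat
      rw [tendsto_iff_dist_tendsto_zero]
      refine squeeze_zero (fun _ => dist_nonneg) (fun k => (hmx k).le) ?_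
      exact tendsto_one_div_add_atTop_nhds_zero_nat
    refine ⟨v, fun N hN => ?_⟩
    have := (hx'.prodMk_nhds hv').eventually_mem hN
    exact this.mono fun k hk => ⟨m k, hk⟩
  obtain ⟨x₀, hx₀⟩ := exists_gen hb
  obtain ⟨v₀, hv₀⟩ := hZp x₀
  have hdense := dense_prod hb hS hm hx₀ v₀
  have hZu : Z = univ := by
    have h2 : closure (range fun n : ℕ => (b ^ n • x₀, S^[n] v₀)) ⊆ Z := by
      refine closure_minimal ?_ hZc
      rintro _ ⟨n, rfl⟩
      exact hZn n _ hv₀
    rw [hdense.closure_eq] at h2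
    exact univ_subset_iff.1 h2
  obtain ⟨v, hv⟩ := hWn
  have hmem : (t₀, v) ∈ Z := by rw [hZu]; exact mem_univ _
  have hN : Metric.ball t₀ (ε / 2) ×ˢ W ∈ 𝓝 (t₀, v) :=
    prod_mem_nhds (Metric.ball_mem_nhds _ (by positivity)) (hW.mem_nhds hv)
  have h3 := hmem _ hN
  have h4 : ∀ᶠ k in (𝓤 : Filter ℕ), dist (t k) t₀ < ε / 2 :=
    ht₀'.eventually_mem (Metric.ball_mem_nhds t₀ (by positivity : 0 < ε / 2))
  obtain ⟨k, ⟨m, hmk1, hmk2⟩, hk⟩ := (h3.and h4).exists
  have h5 := hzt k m hmk2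
  have h6 : dist (b ^ m • z k) t₀ < ε / 2 := hmk1
  have h7 := dist_triangle_right (b ^ m • z k) (t k) t₀
  linarith

end Pool.Agent.Q227.Fur
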