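import Pool.Agent.Q227.Fur.Unif

set_option autoImplicit false

/-! A uniform version of the density of `(p ^ m q ^ l x, S₁ ^ m S₂ ^ l y)` for minimal actions of
`ℕ × ℕ`, with bounded `l`: it suffices that the orbit of `x` under `x ↦ p x` is `η`-dense. -/

open Set Topology Filter

namespace Pool.Agent.Q227.Fur

universe v

variable {Y : Type v} [TopologicalSpace Y]

/-- bounded visits of a generic point -/
lemma univ_ptC2 [CompactSpace Y] [T2Space Y] {p q : ℕ} (hp : 2 ≤ p) (hq : 2 ≤ q) {S₁ S₂ : Y → Y}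
    (h₁ : Continuous S₁) (h₂ : Continuous S₂) (hc : Function.Commute S₁ S₂)
    (hm : ∀ y, Dense (range fun n : ℕ × ℕ => S₁^[n.1] (S₂^[n.2] y))) {W : Set Y} (hW : IsOpen W)
    (hWn : W.Nonempty) {x : UnitAddCircle}
    (hx : ∀ r : ℕ, 1 ≤ r → Dense (range fun n : ℕ => (p ^ r) ^ n • x))
    {U : Set UnitAddCircle} (hU : IsOpen U) (hUn : U.Nonempty) :
    ∃ N : ℕ, ∀ y : Y, ∃ n ≤ N, ∃ l ≤ N, (p ^ n * q ^ l) • x ∈ U ∧ S₁^[n] (S₂^[l] y) ∈ W := by
  set O : ℕ × ℕ → Set Y :=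
    fun n => {y | (p ^ n.1 * q ^ n.2) • x ∈ U ∧ S₁^[n.1] (S₂^[n.2] y) ∈ W} with hO
  have hOo : ∀ n, IsOpen (O n) := by
    intro n
    by_cases h : (p ^ n.1 * q ^ n.2) • x ∈ U
    · have : O n = (fun y => S₁^[n.1] (S₂^[n.2] y)) ⁻¹' W := by
        ext y; simp [hO, h]
      rw [this]
      exact hW.preimage ((h₁.iterate n.1).comp (h₂.iterate n.2))
    · have : O n = ∅ := by
        ext y; simp [hO, h]
      rw [this]
      exact isOpen_empty
  have hcov : (univ : Set Y) ⊆ ⋃ n, O n := by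
    intro y _
    have hd := dense_prod2 hp hq h₁ h₂ hc hm (x := x) (fun r hr => (hx r hr).mono (by
      rintro _ ⟨n, rfl⟩
      exact ⟨n, 0, by simp⟩)) y
    obtain ⟨w, hw1, ⟨n, rfl⟩⟩ := hd.inter_open_nonempty (U ×ˢ W) (hU.prod hW) (hUn.prod hWn)
    exact mem_iUnion.2 ⟨n, hw1⟩
  obtain ⟨t, ht⟩ := isCompact_univ.elim_finite_subcover O hOo hcov
  refine ⟨t.sup (fun n => max n.1 n.2), fun y => ?_⟩
  have hy := ht (mem_univ y)
  rw [mem_iUnion₂] at hy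
  obtain ⟨n, hn, h1, h2⟩ := hy
  have h3 := Finset.le_sup (f := fun n : ℕ × ℕ => max n.1 n.2) hn
  exact ⟨n.1, (le_max_left _ _).trans h3, n.2, (le_max_right _ _).trans h3, h1, h2⟩

/-- **Uniformity for two maps.** -/
theorem unif2 [CompactSpace Y] [T2Space Y] {p q : ℕ} (hp : 2 ≤ p) (hq : 2 ≤ q) {S₁ S₂ : Y → Y}
    (h₁ : Continuous S₁) (h₂ : Continuous S₂) (hc : Function.Commute S₁ S₂)
    (hm : ∀ y, Dense (range fun n : ℕ × ℕ => S₁^[n.1] (S₂^[n.2] y))) {W : Set Y} (hW : IsOpen W)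
    (hWn : W.Nonempty) {ε : ℝ} (hε : 0 < ε) :
    ∃ (η : ℝ) (N : ℕ), 0 < η ∧ ∀ z : UnitAddCircle, (∀ t, ∃ n : ℕ, dist (p ^ n • z) t < η) →
      ∀ y : Y, ∀ t : UnitAddCircle, ∃ m : ℕ, ∃ l ≤ N, S₁^[m] (S₂^[l] y) ∈ W ∧
        dist ((p ^ m * q ^ l) • z) t < ε := by
  obtain ⟨x, hx⟩ := exists_gen hp
  obtain ⟨T, -, hT, hTc⟩ := isCompact_univ.finite_cover_balls (X := UnitAddCircle)
    (e := ε / 2) (by positivity)
  have hN : ∀ t : UnitAddCircle, ∃ N : ℕ, ∀ y : Y, ∃ n ≤ N, ∃ l ≤ N,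
      (p ^ n * q ^ l) • x ∈ Metric.ball t (ε / 4) ∧ S₁^[n] (S₂^[l] y) ∈ W := fun t =>
    univ_ptC2 hp hq h₁ h₂ hc hm hW hWn hx Metric.isOpen_ball
      ⟨t, Metric.mem_ball_self (by positivity)⟩
  choose N hN using hN
  set M : ℕ := hT.toFinset.sup N with hM
  have hcont : ∀ᶠ z in 𝓝 x, ∀ k ∈ Finset.range (M + 1) ×ˢ Finset.range (M + 1),
      dist ((p ^ k.1 * q ^ k.2) • z) ((p ^ k.1 * q ^ k.2) • x) < ε / 4 := by
    rw [Finset.eventually_all]
    intro k _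
    have hc : Continuous fun z : UnitAddCircle => (p ^ k.1 * q ^ k.2) • z := by fun_prop
    exact (hc.tendsto x).eventually (Metric.ball_mem_nhds _ (by positivity))
  obtain ⟨η, hη, hηx⟩ := Metric.eventually_nhds_iff.1 hcont
  refine ⟨η, M, hη, fun z hz y t => ?_⟩
  obtain ⟨n, hn⟩ := hz x
  obtain ⟨t₀, ht₀, htt⟩ := mem_iUnion₂.1 (hTc (mem_univ t))
  obtain ⟨m, hm1, l, hl, h3, h4⟩ := hN t₀ (S₁^[n] y)
  have hNM : N t₀ ≤ M := Finset.le_sup (f := N) (hT.mem_toFinset.2 ht₀)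
  refine ⟨m + n, l, hl.trans hNM, ?_, ?_⟩
  · rw [Function.iterate_add_apply]
    have := (hc.iterate_iterate n l) y
    have e : S₁^[n] (S₂^[l] y) = S₂^[l] (S₁^[n] y) := this
    rw [e]
    exact h4
  · have e : (p ^ (m + n) * q ^ l) • z = (p ^ m * q ^ l) • (p ^ n • z) := by
      rw [← mul_smul]
      congr 1
      rw [pow_add]
      ring
    rw [e]
    have h5 := hηx hn (m, l) (by
      rw [Finset.mem_product, Finset.mem_range, Finset.mem_range]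
      exact ⟨by simp only; omega, by simp only; omega⟩)
    have h6 : dist ((p ^ m * q ^ l) • x) t₀ < ε / 4 := h3
    have h7 : dist t t₀ < ε / 2 := htt
    have h8 := dist_triangle ((p ^ m * q ^ l) • (p ^ n • z)) ((p ^ m * q ^ l) • x) t₀
    have h9 := dist_triangle_right ((p ^ m * q ^ l) • (p ^ n • z)) t t₀
    have h10 : dist ((p ^ m * q ^ l) • (p ^ n • z)) ((p ^ m * q ^ l) • x) < ε / 4 := h5
    linarith

end Pool.Agent.Q227.Fur
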